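import Pool.Agent.V11331.BR.Fin

set_option autoImplicit false

/-!
# MP_b68431_pr: a critical branching random walk for a quasi-symmetric kernel with one-ended trace

`Env`, `Omega`, `pos`, `alive`, `envMeasure`, `brw` are defined in `Pool.Agent.V11331.BR.Base`,
`trace` and `numEnds` in `Pool.Agent.V11331.BR.Ends`, `walk` in `Pool.Agent.V11331.BR.Rho`.
-/

open MeasureTheory Filter
open scoped ENNReal

namespace Pool.Agent.Results.MP_b68431_pr.OneEndedTrace

open Pool.Agent.V11331.BR

/-- `P` moves along the edges of `G`. -/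
def NearestNeighbour {V : Type} (G : SimpleGraph V) (P : V → PMF V) : Prop :=
  ∀ x y, P x y ≠ 0 → G.Adj x y

/-- Every vertex is reached from every vertex. -/
def IsIrreducible {V : Type} (P : V → PMF V) : Prop := ∀ x y, ∃ n, walk P x n y ≠ 0

/-- There is a finite `C` with `P_x(X_n = y) ≤ C P_y(X_n = x)` for all `x`, `y`, `n`. -/
def QuasiSymmetric {V : Type} (P : V → PMF V) : Prop :=
  ∃ C : ℝ≥0∞, C ≠ ∞ ∧ ∀ (n : ℕ) (x y : V), walk P x n y ≤ C * walk P y n x

/-- `limsup P_x(X_n = y) ^ (1 / n) = ρ` for all `x`, `y`. -/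
def HasSpectralRadius {V : Type} (P : V → PMF V) (ρ : ℝ≥0∞) : Prop :=
  ∀ x y, limsup (fun n : ℕ => (walk P x n y) ^ (1 / (n : ℝ))) atTop = ρ

lemma PK_self (x : VV) : PK x x = 0 := by
  rw [PK_apply]
  unfold pE
  simp

/-- The graph. -/
def G : SimpleGraph VV where
  Adj x y := PK x y ≠ 0
  symm := ⟨fun x y h => by
    show PK y x ≠ 0
    rwa [PK_symm]⟩
  loopless := ⟨fun x h => h (PK_self x)⟩

lemma reach (n : ℕ) (x y : VV) (h : walk PK x n y ≠ 0) : G.Reachable x y := by
  induction n generalizing x with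
  | zero =>
    have h' : PMF.pure x y ≠ 0 := h
    rw [PMF.pure_apply] at h'
    have : y = x := by
      by_contra hne
      simp [hne] at h'
    rw [this]
  | succ n ih =>
    rw [walk_succ', PMF.bind_apply] at h
    obtain ⟨z, hz⟩ := not_forall.1 (mt ENNReal.tsum_eq_zero.2 h)
    have h1 : G.Adj x z := left_ne_zero_of_mul hz
    exact h1.reachable.trans (ih z (right_ne_zero_of_mul hz))

lemma finite_low (N : ℕ) : {y : VV | lv y ≤ N}.Finite := by
  have h : {y : VV | lv y ≤ N} ⊆ ⋃ k ∈ Finset.range (N + 1), Set.range (vx k) := by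
    intro y hy
    obtain ⟨k, i, rfl⟩ := exists_vx y
    have hy' : k ≤ N := hy
    simp only [Set.mem_iUnion]
    exact ⟨k, Finset.mem_range.2 (by omega), i, rfl⟩
  refine Set.Finite.subset ?_ h
  exact Set.Finite.biUnion (Finset.finite_toSet _) fun k _ => Set.finite_range _

/-- **There is a critical branching random walk for a quasi-symmetric (even symmetric)
non-amenable kernel whose trace is one-ended almost surely.** -/
theorem result : ∃ (V : Type) (_ : MeasurableSpace V) (_ : DiscreteMeasurableSpace V)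
    (G : SimpleGraph V) (P : V → PMF V) (μ : PMF ℕ) (ρ : ℝ≥0∞),
    Countable V ∧ Infinite V ∧ G.Connected ∧ (∀ x, (G.neighborSet x).Finite) ∧
    NearestNeighbour G P ∧ IsIrreducible P ∧ (∀ x y, P x y = P y x) ∧ QuasiSymmetric P ∧
    HasSpectralRadius P ρ ∧ ρ < 1 ∧ μ 0 = 0 ∧ ∑' k : ℕ, μ k * (k : ℝ≥0∞) = ρ⁻¹ ∧
    ∀ i : V, ∀ᵐ ω ∂(brw μ P), numEnds (trace ω i) = 1 := by
  refine ⟨VV, inferInstance, inferInstance, G, PK, PMF.pure 2, ENNReal.ofReal (1 / 2),
    inferInstance, ?_, ?_, ?_, ?_, ?_, PK_symm, ?_, rho_eq, ?_, ?_, ?_, main_end⟩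
  · exact Infinite.of_injective (fun n : ℕ => vx n ⟨0, fin_pos n⟩) (fun a b h => by
      have := congrArg lv h
      simpa using this)
  · have : Nonempty VV := ⟨vx 0 ⟨0, fin_pos 0⟩⟩
    exact SimpleGraph.Connected.mk fun x y => by
      obtain ⟨n, hn⟩ := irred x y
      exact reach n x y hn.ne'
  · intro x
    refine (finite_low (lv x + 1)).subset ?_
    intro y hy
    have hy' : PK x y ≠ 0 := hy
    rw [PK_apply] at hy'
    by_contra hlt
    have hlt' : lv x + 1 < lv y := not_le.1 hlt
    apply hy'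
    unfold pE
    rw [if_neg (by omega), if_neg (by omega), if_neg (by omega)]
    simp
  · exact fun x y h => h
  · intro x y
    obtain ⟨n, hn⟩ := irred x y
    exact ⟨n, hn.ne'⟩
  · refine ⟨1, by simp, fun n x y => ?_⟩
    rw [one_mul, walk_symm PK PK_symm]
  · rw [← ENNReal.ofReal_one]
    exact (ENNReal.ofReal_lt_ofReal_iff (by norm_num)).2 (by norm_num)
  · rw [PMF.pure_apply]
    simp
  · rw [tsum_eq_single 2]
    · rw [PMF.pure_apply, if_pos rfl, one_mul, one_div,
        ENNReal.ofReal_inv_of_pos (by norm_num : (0 : ℝ) < 2), inv_inv]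
      simp
    · intro b hb
      rw [PMF.pure_apply, if_neg hb, zero_mul]

end Pool.Agent.Results.MP_b68431_pr.OneEndedTrace
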